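import Pool.Agent.W797.Cap.Final

set_option autoImplicit false

/-!
# The capacity criterion (3) does not imply approximability (1)

Here `P` is the Laplacian on three-space, `s = 0` and the local space is `L^q`, with `3 < q < ∞`.
So `d = 3/q' - 2 = 1 - 3/q > 0`. There is one compact set `K`, which serves for all these `q`,
such that (3) holds and (1) fails.

The set: `K` is the box `|x 0| ≤ 1, 0 ≤ x 1 ≤ 1, 0 ≤ x 2 ≤ 1` with the open prisms
`|x 0 - h k| < h k / 8, |x 2 - z k| < h k / 8` removed, where `h k = 2^(-k-1)` and every real
number is approached by infinitely many of the `z k`.

Condition (3): every point outside `K` is an end point of segments of any length outside `K`,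
and a segment of length `l` has capacity at least a constant times `l^(1-3/q)`. A ball of radius
`δ` has capacity at most a constant times `δ^(1-3/q)`.

Failure of (1): the interior of `K` misses the plane `x 0 = 0`, so the characteristic function
`f` of the half space `x 0 > 0` is locally constant there. Let `w` be a smooth function supported
in the box, equal to `x 0 * b(x 1) * b(x 2)` for `|x 0| ≤ 3/4`. With cutoffs `X k` at scale
`h k` equal to one on the `k`th prism, `w (1 - ∑_{k<J} X k)` vanishes on the first `J` prisms, the
norm of its Laplacian in `L^{q'}` is bounded independently of `J` (as `q' < 2`), and the integral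
of `f` against this Laplacian does not depend on `J` and is not zero, whereas the integrals of a
function harmonic near `K` over `K` tend to zero.
-/

namespace Pool.Agent.Results.MP_fe4d92_an.CapacityCriterionFails

open MeasureTheory Pool.Agent.W797.Cap
open scoped ENNReal

/-- There is a compact subset of three-space with null boundary such that for the Laplacian,
`s = 0` and `L^q`, `3 < q < ∞`, condition (3) holds and condition (1) fails. -/
theorem result : ∃ K : Set E3, IsCompact K ∧ volume (frontier K) = 0 ∧
    ∀ q : ℝ≥0∞, 3 < q → q ≠ ⊤ → Cond3 q K ∧ ¬ Cond1 q K :=
  main

end Pool.Agent.Results.MP_fe4d92_an.CapacityCriterionFails
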